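import Mathlib

/-!
# Semilocal skew Laurent series rings

The coefficient ring: let `k` be a field and let `A` be the commutative ring of all families
`(f_i)_{i ∈ ℤ}` of power series in `k⟦t⟧` which have all the same constant term `c`, and which are
equal to `c` for all but finitely many `i`. It is local, and its maximal ideal `I` (where `c = 0`)
is not nil. Let `φ` be the shift. We show that the skew Laurent series ring `A((x,φ))` is local, with
the maximal ideal `I((x))`.
-/

set_option autoImplicit false

namespace Pool.Agent.Results.MP_669787_al.NotNil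

open PowerSeries hiding coeff_mul coeff_one

universe u

/-! ### Skew Laurent series rings -/

/-- The additive group of all functions `ℤ → A` with support bounded below. -/
def boundedBelow (A : Type u) [Ring A] : AddSubgroup (ℤ → A) where
  carrier := {f | ∃ N : ℤ, ∀ n < N, f n = 0}
  zero_mem' := ⟨0, fun _ _ => rfl⟩
  add_mem' := by
    rintro f g ⟨N, hN⟩ ⟨M, hM⟩
    refine ⟨min N M, fun n hn => ?_⟩
    rw [Pi.add_apply, hN n (lt_of_lt_of_le hn (min_le_left _ _)),
      hM n (lt_of_lt_of_le hn (min_le_right _ _)), add_zero]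
  neg_mem' := by
    rintro f ⟨N, hN⟩
    exact ⟨N, fun n hn => by rw [Pi.neg_apply, hN n hn, neg_zero]⟩

/-- The skew Laurent series ring `A((x,φ))`. The element `f` stands for the formal series
`∑ f.1 n * x ^ n`, with the coefficients on the left. -/
def SkewLaurent (A : Type u) [Ring A] (_φ : RingAut A) : Type u := boundedBelow A

namespace SkewLaurent

variable {A : Type u} [Ring A] {φ : RingAut A}

instance : AddCommGroup (SkewLaurent A φ) := inferInstanceAs (AddCommGroup (boundedBelow A))

/-- The coefficient of `x ^ n`. -/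
def coeff (f : SkewLaurent A φ) (n : ℤ) : A := f.1 n

@[ext] lemma ext {f g : SkewLaurent A φ} (h : ∀ n, f.coeff n = g.coeff n) : f = g :=
  Subtype.ext (funext h)

@[simp] lemma coeff_zero (n : ℤ) : (0 : SkewLaurent A φ).coeff n = 0 := rfl
@[simp] lemma coeff_add (f g : SkewLaurent A φ) (n : ℤ) :
    (f + g).coeff n = f.coeff n + g.coeff n := rfl
@[simp] lemma coeff_neg (f : SkewLaurent A φ) (n : ℤ) : (-f).coeff n = -f.coeff n := rfl
@[simp] lemma coeff_sub (f g : SkewLaurent A φ) (n : ℤ) :
    (f - g).coeff n = f.coeff n - g.coeff n := rfl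

lemma bdd (f : SkewLaurent A φ) : ∃ N : ℤ, ∀ n < N, f.coeff n = 0 := f.2

lemma zpow_add_apply (i j : ℤ) (a : A) : (φ ^ (i + j)) a = (φ ^ i) ((φ ^ j) a) := by
  rw [zpow_add]; rfl

/-- the terms of the sum defining the product have finite support -/
lemma finite_support (f g : SkewLaurent A φ) (n : ℤ) :
    Function.HasFiniteSupport fun i : ℤ => f.coeff i * (φ ^ i) (g.coeff (n - i)) := by
  obtain ⟨N, hN⟩ := f.bdd
  obtain ⟨M, hM⟩ := g.bdd
  refine Set.Finite.subset (Set.finite_Icc N (n - M)) fun i hi => ?_
  rw [Function.mem_support] at hi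
  rw [Set.mem_Icc]
  by_contra hcon
  apply hi
  by_cases h : i < N
  · rw [hN i h, zero_mul]
  · have h2 : n - i < M := by
      by_contra h3
      exact hcon ⟨by omega, by omega⟩
    rw [hM _ h2, map_zero, mul_zero]

lemma mul_bdd (f g : SkewLaurent A φ) {N M : ℤ} (hN : ∀ n < N, f.coeff n = 0)
    (hM : ∀ n < M, g.coeff n = 0) (n : ℤ) (hn : n < N + M) :
    ∑ᶠ i : ℤ, f.coeff i * (φ ^ i) (g.coeff (n - i)) = 0 := by
  rw [← finsum_zero (α := ℤ)]
  congr 1
  funext i
  by_cases h : i < N
  · rw [hN i h, zero_mul]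
  · rw [hM (n - i) (by omega), map_zero, mul_zero]

/-- The product: `x a = φ(a) x`, so the coefficient of `x ^ n` in `f g` is the (finite) sum of all
`f_i φ^i(g_{n-i})`. -/
noncomputable instance : Mul (SkewLaurent A φ) where
  mul f g := ⟨fun n => ∑ᶠ i : ℤ, f.coeff i * (φ ^ i) (g.coeff (n - i)), by
    obtain ⟨N, hN⟩ := f.bdd
    obtain ⟨M, hM⟩ := g.bdd
    exact ⟨N + M, mul_bdd f g hN hM⟩⟩

lemma coeff_mul (f g : SkewLaurent A φ) (n : ℤ) :
    (f * g).coeff n = ∑ᶠ i : ℤ, f.coeff i * (φ ^ i) (g.coeff (n - i)) := rfl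

/-- The series `a x ^ n`. -/
noncomputable def mono (φ : RingAut A) (n : ℤ) (a : A) : SkewLaurent A φ :=
  ⟨fun m => if m = n then a else 0, n, fun m hm => if_neg (by omega)⟩

lemma coeff_mono (n : ℤ) (a : A) (m : ℤ) :
    (mono φ n a).coeff m = if m = n then a else 0 := rfl

noncomputable instance : One (SkewLaurent A φ) := ⟨mono φ 0 1⟩

lemma one_def : (1 : SkewLaurent A φ) = mono φ 0 1 := rfl

lemma coeff_mono_mul (n : ℤ) (a : A) (f : SkewLaurent A φ) (m : ℤ) :
    (mono φ n a * f).coeff m = a * (φ ^ n) (f.coeff (m - n)) := by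
  rw [coeff_mul, finsum_eq_single _ n]
  · rw [coeff_mono, if_pos rfl]
  · intro i hi
    rw [coeff_mono, if_neg hi, zero_mul]

lemma coeff_mul_mono (n : ℤ) (a : A) (f : SkewLaurent A φ) (m : ℤ) :
    (f * mono φ n a).coeff m = f.coeff (m - n) * (φ ^ (m - n)) a := by
  rw [coeff_mul, finsum_eq_single _ (m - n)]
  · rw [coeff_mono, if_pos (by omega)]
  · intro i hi
    rw [coeff_mono, if_neg (by omega), map_zero, mul_zero]

protected lemma mul_assoc (f g h : SkewLaurent A φ) : f * g * h = f * (g * h) := by
  ext n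
  rw [coeff_mul, coeff_mul]
  have e1 : (fun i => (f * g).coeff i * (φ ^ i) (h.coeff (n - i))) = fun i =>
      ∑ᶠ j : ℤ, f.coeff j * (φ ^ j) (g.coeff (i - j)) * (φ ^ i) (h.coeff (n - i)) := by
    funext i
    rw [coeff_mul, finsum_mul' _ _ (finite_support f g i)]
  have e2 : (fun j => f.coeff j * (φ ^ j) ((g * h).coeff (n - j))) = fun j =>
      ∑ᶠ i : ℤ, f.coeff j * (φ ^ j) (g.coeff (i - j)) * (φ ^ i) (h.coeff (n - i)) := by
    funext j
    rw [coeff_mul]
    have hmap := (φ ^ j : RingAut A).toAddMonoidHom.map_finsum (finite_support g h (n - j))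
    change (φ ^ j) _ = ∑ᶠ i, (φ ^ j) _ at hmap
    rw [hmap, mul_finsum' _ _ (by
      refine (finite_support g h (n - j)).subset fun i hi => ?_
      rw [Function.mem_support] at hi ⊢
      intro h0
      exact hi (by rw [h0, map_zero]))]
    rw [← finsum_comp_equiv (Equiv.subRight j)]
    congr 1
    funext i
    rw [Equiv.subRight_apply, map_mul, ← zpow_add_apply, mul_assoc,
      show j + (i - j) = i by ring, show n - j - (i - j) = n - i by ring]
  rw [e1, e2]
  have hfin : Function.HasFiniteSupport (fun p : ℤ × ℤ =>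
      f.coeff p.2 * (φ ^ p.2) (g.coeff (p.1 - p.2)) * (φ ^ p.1) (h.coeff (n - p.1))) := by
    obtain ⟨N, hN⟩ := f.bdd
    obtain ⟨M, hM⟩ := g.bdd
    obtain ⟨L, hL⟩ := h.bdd
    refine Set.Finite.subset ((Set.finite_Icc (N + M) (n - L)).prod
      (Set.finite_Icc N (n - L - M))) fun p hp => ?_
    rw [Function.mem_support] at hp
    have h1 : ¬ p.2 < N := fun h => hp (by rw [hN _ h, zero_mul, zero_mul])
    have h2 : ¬ p.1 - p.2 < M := fun h => hp (by rw [hM _ h, map_zero, mul_zero, zero_mul])
    have h3 : ¬ n - p.1 < L := fun h => hp (by rw [hL _ h, map_zero, mul_zero])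
    rw [Set.mem_prod, Set.mem_Icc, Set.mem_Icc]
    omega
  have hfin' : Function.HasFiniteSupport (fun p : ℤ × ℤ =>
      f.coeff p.1 * (φ ^ p.1) (g.coeff (p.2 - p.1)) * (φ ^ p.2) (h.coeff (n - p.2))) := by
    refine Set.Finite.subset (Set.Finite.image Prod.swap hfin) fun p hp => ?_
    exact ⟨p.swap, hp, p.swap_swap⟩
  rw [← finsum_curry (fun p : ℤ × ℤ =>
      f.coeff p.2 * (φ ^ p.2) (g.coeff (p.1 - p.2)) * (φ ^ p.1) (h.coeff (n - p.1))) hfin,
    ← finsum_curry (fun p : ℤ × ℤ =>
      f.coeff p.1 * (φ ^ p.1) (g.coeff (p.2 - p.1)) * (φ ^ p.2) (h.coeff (n - p.2))) hfin',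
    ← finsum_comp_equiv (Equiv.prodComm ℤ ℤ)]
  rfl

noncomputable instance : Ring (SkewLaurent A φ) :=
  { (inferInstance : AddCommGroup (SkewLaurent A φ)) with
    mul := (· * ·)
    one := 1
    left_distrib := fun f g h => by
      ext n
      change (f * (g + h)).coeff n = (f * g + f * h).coeff n
      rw [coeff_add, coeff_mul, coeff_mul, coeff_mul,
        ← finsum_add_distrib (finite_support f g n) (finite_support f h n)]
      congr 1
      funext i
      rw [coeff_add, map_add, mul_add]
    right_distrib := fun f g h => by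
      ext n
      change ((f + g) * h).coeff n = (f * h + g * h).coeff n
      rw [coeff_add, coeff_mul, coeff_mul, coeff_mul,
        ← finsum_add_distrib (finite_support f h n) (finite_support g h n)]
      congr 1
      funext i
      rw [coeff_add, add_mul]
    zero_mul := fun f => by
      ext n
      change (0 * f).coeff n = (0 : SkewLaurent A φ).coeff n
      rw [coeff_mul, coeff_zero]
      exact finsum_eq_zero_of_forall_eq_zero fun i => by rw [coeff_zero, zero_mul]
    mul_zero := fun f => by
      ext n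
      change (f * 0).coeff n = (0 : SkewLaurent A φ).coeff n
      rw [coeff_mul, coeff_zero]
      exact finsum_eq_zero_of_forall_eq_zero fun i => by rw [coeff_zero, map_zero, mul_zero]
    mul_assoc := SkewLaurent.mul_assoc
    one_mul := fun f => by
      ext n
      change (mono φ 0 1 * f).coeff n = f.coeff n
      rw [coeff_mono_mul, zpow_zero, one_mul, sub_zero]
      rfl
    mul_one := fun f => by
      ext n
      change (f * mono φ 0 1).coeff n = f.coeff n
      rw [coeff_mul_mono, sub_zero, map_one, mul_one] }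

end SkewLaurent

/-! ### Semilocal rings -/

/-- A ring `R` is semilocal if `R / J(R)` is semisimple Artinian. -/
def IsSemilocal (R : Type u) [Ring R] : Prop := IsSemisimpleRing (R ⧸ Ring.jacobson R)

/-- A ring in which the elements outside of the Jacobson radical have left inverses is semilocal. -/
lemma isSemilocal_of_left_inverse (R : Type u) [Ring R] [Nontrivial R]
    (h : ∀ a : R, a ∉ Ring.jacobson R → ∃ b, b * a = 1) : IsSemilocal R := by
  have hne : Nontrivial (R ⧸ Ring.jacobson R) := by
    rw [Ideal.Quotient.nontrivial_iff]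
    rw [← Ideal.jacobson_bot, Ne, Ideal.jacobson_eq_top_iff]
    exact bot_ne_top
  have key : ∀ a : R ⧸ Ring.jacobson R, a ≠ 0 → ∃ b, b * a = 1 := by
    intro a ha
    obtain ⟨a, rfl⟩ := Ideal.Quotient.mk_surjective a
    obtain ⟨b, hb⟩ := h a (fun h0 => ha (Ideal.Quotient.eq_zero_iff_mem.2 h0))
    exact ⟨Ideal.Quotient.mk _ b, by rw [← map_mul, hb, map_one]⟩
  have hu : ∀ a : R ⧸ Ring.jacobson R, IsUnit a ∨ a = 0 := by
    intro a
    by_cases ha : a = 0
    · exact Or.inr ha
    · left
      obtain ⟨b, hb⟩ := key a ha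
      have hb0 : b ≠ 0 := by
        rintro rfl
        rw [zero_mul] at hb
        exact zero_ne_one hb
      obtain ⟨c, hc⟩ := key b hb0
      have hca : c = a := by
        calc c = c * (b * a) := by rw [hb, mul_one]
          _ = a := by rw [← mul_assoc, hc, one_mul]
      rw [hca] at hc
      exact ⟨⟨a, b, hc, hb⟩, rfl⟩
  let _ := DivisionRing.ofIsUnitOrEqZero hu
  exact (inferInstance : IsSemisimpleRing (R ⧸ Ring.jacobson R))

/-! ### The coefficient ring -/

/-- The ring `A` of all families `(f_i)_{i ∈ ℤ}` of power series over `k` with the same constant term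
`c` and with `f_i = c` for all but finitely many `i`. -/
def coeffRing (k : Type u) [Field k] : Subring (ℤ → PowerSeries k) where
  carrier := {f | ∃ c : k, (∀ i, constantCoeff (f i) = c) ∧ {i | f i ≠ C c}.Finite}
  zero_mem' := ⟨0, fun i => by simp, by simp⟩
  one_mem' := ⟨1, fun i => by simp, by simp⟩
  add_mem' := by
    rintro f g ⟨c, hc, hc'⟩ ⟨d, hd, hd'⟩
    refine ⟨c + d, fun i => by rw [Pi.add_apply, map_add, hc, hd], ?_⟩
    refine (hc'.union hd').subset fun i hi => ?_
    by_contra hcon
    rw [Set.mem_union, not_or, Set.mem_ofPred_eq, Set.mem_ofPred_eq, not_not, not_not] at hcon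
    exact hi (by rw [Pi.add_apply, hcon.1, hcon.2, map_add])
  mul_mem' := by
    rintro f g ⟨c, hc, hc'⟩ ⟨d, hd, hd'⟩
    refine ⟨c * d, fun i => by rw [Pi.mul_apply, map_mul, hc, hd], ?_⟩
    refine (hc'.union hd').subset fun i hi => ?_
    by_contra hcon
    rw [Set.mem_union, not_or, Set.mem_ofPred_eq, Set.mem_ofPred_eq, not_not, not_not] at hcon
    exact hi (by rw [Pi.mul_apply, hcon.1, hcon.2, map_mul])
  neg_mem' := by
    rintro f ⟨c, hc, hc'⟩
    refine ⟨-c, fun i => by rw [Pi.neg_apply, map_neg, hc], hc'.subset fun i hi => ?_⟩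
    intro h0
    exact hi (by rw [Pi.neg_apply, h0, map_neg])

variable (k : Type u) [Field k]

lemma shift_mem (m : ℤ) {f : ℤ → PowerSeries k} (hf : f ∈ coeffRing k) :
    (fun i => f (i - m)) ∈ coeffRing k := by
  obtain ⟨c, hc, hc'⟩ := hf
  refine ⟨c, fun i => hc _, ?_⟩
  refine (hc'.image (fun i => i + m)).subset fun i hi => ?_
  exact ⟨i - m, hi, by ring⟩

/-- The shift automorphism of `A`. -/
noncomputable def shift : RingAut (coeffRing k) where
  toFun f := ⟨fun i => f.1 (i - 1), shift_mem k 1 f.2⟩
  invFun f := ⟨fun i => f.1 (i - (-1)), shift_mem k (-1) f.2⟩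
  left_inv f := by
    ext1
    funext i
    change f.1 (i - (-1) - 1) = f.1 i
    ring_nf
  right_inv f := by
    ext1
    funext i
    change f.1 (i - 1 - (-1)) = f.1 i
    ring_nf
  map_mul' f g := rfl
  map_add' f g := rfl

lemma shift_zpow (n : ℤ) (f : coeffRing k) (i : ℤ) : ((shift k ^ n) f).1 i = f.1 (i - n) := by
  have h1 : ∀ (f : coeffRing k) (i : ℤ), (shift k f).1 i = f.1 (i - 1) := fun _ _ => rfl
  have h2 : ∀ (f : coeffRing k) (i : ℤ), ((shift k)⁻¹ f).1 i = f.1 (i - (-1)) := fun _ _ => rfl
  induction n using Int.induction_on generalizing f i with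
  | zero => simp
  | succ n ih =>
    rw [SkewLaurent.zpow_add_apply, ih, zpow_one, h1]
    ring_nf
  | pred n ih =>
    rw [sub_eq_add_neg, SkewLaurent.zpow_add_apply, ih, zpow_neg_one, h2]
    ring_nf

variable {k}

/-- the constant term of an element of `A` -/
noncomputable def aug (f : coeffRing k) : k := constantCoeff (f.1 0)

lemma const_eq (f : coeffRing k) (i : ℤ) : constantCoeff (f.1 i) = aug f := by
  obtain ⟨c, hc, _⟩ := f.2
  rw [hc i, aug, hc 0]

lemma fin_supp (f : coeffRing k) : {i | f.1 i ≠ C (aug f)}.Finite := by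
  obtain ⟨c, hc, h⟩ := f.2
  have : aug f = c := hc 0
  rwa [this]

@[simp] lemma aug_zero : aug (0 : coeffRing k) = 0 := map_zero _
@[simp] lemma aug_one : aug (1 : coeffRing k) = 1 := map_one _
lemma aug_add (f g : coeffRing k) : aug (f + g) = aug f + aug g := map_add _ _ _
lemma aug_neg (f : coeffRing k) : aug (-f) = -aug f := map_neg _ _
lemma aug_mul (f g : coeffRing k) : aug (f * g) = aug f * aug g := map_mul _ _ _
lemma aug_zpow (n : ℤ) (f : coeffRing k) : aug ((shift k ^ n) f) = aug f := by
  rw [aug, shift_zpow, const_eq]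

lemma exists_inv (f : coeffRing k) (hf : aug f ≠ 0) : ∃ g : coeffRing k, g * f = 1 := by
  refine ⟨⟨fun i => (f.1 i)⁻¹, (aug f)⁻¹, fun i => ?_, ?_⟩, ?_⟩
  · rw [PowerSeries.constantCoeff_inv, const_eq]
  · refine (fin_supp f).subset fun i hi => ?_
    intro h0
    apply hi
    change (f.1 i)⁻¹ = _
    rw [h0]
    rw [PowerSeries.inv_eq_iff_mul_eq_one]
    · rw [← map_mul, inv_mul_cancel₀ hf, map_one]
    · simpa using hf
  · ext1
    funext i
    change (f.1 i)⁻¹ * f.1 i = 1
    exact PowerSeries.inv_mul_cancel _ (by rwa [const_eq])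

/-! ### Generalities on skew Laurent series -/

namespace SkewLaurent

variable {A : Type u} [Ring A] {φ : RingAut A}

lemma coeff_one (n : ℤ) : (1 : SkewLaurent A φ).coeff n = if n = 0 then 1 else 0 := rfl

lemma mono_zero (n : ℤ) : mono φ n (0 : A) = 0 := by
  ext m
  rw [coeff_mono, ite_self, coeff_zero]

lemma mono_add (n : ℤ) (a b : A) : mono φ n (a + b) = mono φ n a + mono φ n b := by
  ext m
  rw [coeff_add, coeff_mono, coeff_mono, coeff_mono]
  split_ifs <;> simp

/-- `f` has no coefficients in degrees below `N` -/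
def Ge (N : ℤ) (f : SkewLaurent A φ) : Prop := ∀ n < N, f.coeff n = 0

lemma Ge.mul {N M : ℤ} {f g : SkewLaurent A φ} (hf : Ge N f) (hg : Ge M g) :
    Ge (N + M) (f * g) := mul_bdd f g hf hg

lemma Ge.neg {N : ℤ} {f : SkewLaurent A φ} (hf : Ge N f) : Ge N (-f) := fun n hn => by
  rw [coeff_neg, hf n hn, neg_zero]

lemma ge_one : Ge 0 (1 : SkewLaurent A φ) := fun n hn => by
  rw [coeff_one, if_neg (by omega)]

lemma Ge.pow {f : SkewLaurent A φ} (hf : Ge 1 f) (n : ℕ) : Ge n (f ^ n) := by
  induction n with
  | zero => rw [pow_zero]; exact ge_one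
  | succ n ih => rw [pow_succ]; exact_mod_cast ih.mul hf

/-- A power series with constant term `1` has a left inverse. -/
lemma exists_left_inv {p : SkewLaurent A φ} (hp : Ge 1 p) : ∃ u, u * (1 + p) = 1 := by
  have hstab : ∀ (i : ℤ) (K : ℕ), i.toNat + 1 ≤ K →
      (∑ m ∈ Finset.range K, (-p) ^ m).coeff i =
        (∑ m ∈ Finset.range (i.toNat + 1), (-p) ^ m).coeff i := by
    intro i K hK
    induction K, hK using Nat.le_induction with
    | base => rfl
    | succ K hK ih =>
      rw [Finset.sum_range_succ, coeff_add, ih, (hp.neg.pow K) i (by omega), add_zero]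
  obtain ⟨u, hu⟩ : ∃ u : SkewLaurent A φ, ∀ i,
      u.coeff i = (∑ m ∈ Finset.range (i.toNat + 1), (-p) ^ m).coeff i := by
    refine ⟨⟨fun i => (∑ m ∈ Finset.range (i.toNat + 1), (-p) ^ m).coeff i, 0, fun i hi => ?_⟩,
      fun i => rfl⟩
    have : i.toNat = 0 := by omega
    dsimp only
    rw [this, zero_add, Finset.sum_range_one, pow_zero]
    exact ge_one i hi
  refine ⟨u, ?_⟩
  ext n
  have h1 := congrArg (fun f => coeff f n) (geom_sum_mul (-p) (n.toNat + 1))
  have h2 : ((-p) ^ (n.toNat + 1)).coeff n = 0 := (hp.neg.pow (n.toNat + 1)) n (by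
    push_cast
    omega)
  have h3 : ((∑ m ∈ Finset.range (n.toNat + 1), (-p) ^ m) * (1 + p)).coeff n =
      (1 : SkewLaurent A φ).coeff n := by
    have e : -p - 1 = -(1 + p) := by abel
    simp only [e, mul_neg, coeff_neg, coeff_sub, h2, zero_sub, neg_inj] at h1
    exact h1
  rw [← h3, coeff_mul, coeff_mul]
  congr 1
  funext i
  by_cases hi : i ≤ n
  · rw [hu, hstab i _ (show i.toNat + 1 ≤ n.toNat + 1 by omega)]
  · have : (1 + p).coeff (n - i) = 0 := by
      rw [coeff_add, hp _ (by omega), add_zero]
      exact ge_one _ (by omega)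
    rw [this, map_zero, mul_zero, mul_zero]

/-- the part of degrees below `L` -/
noncomputable def low (L : ℤ) (f : SkewLaurent A φ) : SkewLaurent A φ :=
  ⟨fun n => if n < L then f.coeff n else 0, by
    obtain ⟨N, hN⟩ := f.bdd
    exact ⟨N, fun n hn => by
      dsimp only
      rw [hN n hn, ite_self]⟩⟩

lemma coeff_low (L : ℤ) (f : SkewLaurent A φ) (n : ℤ) :
    (low L f).coeff n = if n < L then f.coeff n else 0 := rfl

lemma ge_sub_low (L : ℤ) (f : SkewLaurent A φ) : Ge L (f - low L f) := fun n hn => by
  rw [coeff_sub, coeff_low, if_pos hn, sub_self]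

lemma low_mem (I : AddSubgroup (SkewLaurent A φ)) (L : ℤ) (f : SkewLaurent A φ)
    (h : ∀ n < L, mono φ n (f.coeff n) ∈ I) : low L f ∈ I := by
  obtain ⟨N, hN⟩ := f.bdd
  by_cases hNL : L ≤ N
  · have : low L f = 0 := by
      ext n
      rw [coeff_low, coeff_zero]
      split_ifs with h
      · exact hN n (by omega)
      · rfl
    rw [this]
    exact I.zero_mem
  · obtain ⟨d, hd⟩ : ∃ d : ℕ, L = N + d := ⟨(L - N).toNat, by omega⟩
    clear hNL
    induction d generalizing L with
    | zero =>
      have : low L f = 0 := by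
        ext n
        rw [coeff_low, coeff_zero]
        split_ifs with h
        · exact hN n (by omega)
        · rfl
      rw [this]
      exact I.zero_mem
    | succ d ih =>
      have e : low L f = low (L - 1) f + mono φ (L - 1) (f.coeff (L - 1)) := by
        ext n
        rw [coeff_add, coeff_low, coeff_low, coeff_mono]
        by_cases h1 : n = L - 1
        · subst h1
          simp
        · rw [if_neg h1, add_zero]
          congr 1
          rw [eq_iff_iff]
          omega
      rw [e]
      exact I.add_mem (ih (L - 1) (fun n hn => h n (by omega)) (by push_cast at hd; omega))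
        (h _ (by omega))

end SkewLaurent

/-! ### The skew Laurent series ring over `A` is local -/

open SkewLaurent

/-- elements supported at one coordinate have augmentation zero -/
lemma aug_of_supp {a : coeffRing k} {i : ℤ} (ha : ∀ j, j ≠ i → a.1 j = 0) : aug a = 0 := by
  rw [← const_eq a (i + 1), ha (i + 1) (by omega), map_zero]

lemma sq_eq {E : SkewLaurent (coeffRing k) (shift k)} {i : ℤ}
    (hE : ∀ m j, j ≠ i → (E.coeff m).1 j = 0) : E * E = mono (shift k) 0 (E.coeff 0) * E := by
  ext1 n
  rw [coeff_mono_mul, coeff_mul, finsum_eq_single _ 0]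
  intro m hm
  ext1
  funext j
  change (E.coeff m).1 j * ((shift k ^ m) (E.coeff (n - m))).1 j = 0
  by_cases hj : j = i
  · rw [shift_zpow, hE (n - m) (j - m) (by omega), mul_zero]
  · rw [hE m j hj, zero_mul]

lemma left_inv_of_supp {E : SkewLaurent (coeffRing k) (shift k)} {i : ℤ}
    (hE : ∀ m j, j ≠ i → (E.coeff m).1 j = 0) : ∃ u, u * (1 + E) = 1 := by
  obtain ⟨d, hd⟩ := exists_inv (1 + E.coeff 0) (by
    rw [aug_add, aug_one, aug_of_supp (hE 0), add_zero]
    exact one_ne_zero)
  refine ⟨1 - mono (shift k) 0 d * E, ?_⟩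
  have h1 : mono (shift k) 0 d * (1 + mono (shift k) 0 (E.coeff 0)) = 1 := by
    ext1 n
    rw [coeff_mono_mul, coeff_add, coeff_one, coeff_mono, coeff_one, sub_zero, zpow_zero]
    change d * ((if n = 0 then 1 else 0) + if n = 0 then E.coeff 0 else 0) = _
    split_ifs with h
    · exact hd
    · rw [add_zero, mul_zero]
  have h2 := sq_eq hE
  calc (1 - mono (shift k) 0 d * E) * (1 + E)
      = 1 + E - mono (shift k) 0 d * (E + E * E) := by noncomm_ring
    _ = 1 + E - mono (shift k) 0 d * (1 + mono (shift k) 0 (E.coeff 0)) * E := by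
        rw [h2]; noncomm_ring
    _ = 1 := by rw [h1, one_mul, add_sub_cancel_right]

lemma mem_jacobson_iff' {R : Type u} [Ring R] (x : R) :
    x ∈ Ring.jacobson R ↔ ∀ y, ∃ z, z * (1 + y * x) = 1 := by
  rw [← Ideal.jacobson_bot, Ideal.mem_jacobson_iff]
  refine forall_congr' fun y => exists_congr fun z => ?_
  rw [Ideal.mem_bot, sub_eq_zero, mul_add, mul_one, mul_assoc, add_comm]

lemma mono_mem_of_supp {a : coeffRing k} {i : ℤ} (ha : ∀ j, j ≠ i → a.1 j = 0) (n : ℤ) :
    mono (shift k) n a ∈ Ring.jacobson (SkewLaurent (coeffRing k) (shift k)) := by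
  rw [mem_jacobson_iff']
  intro y
  obtain ⟨u, hu⟩ := left_inv_of_supp (E := mono (shift k) n a * y) (i := i) (by
    intro m j hj
    rw [coeff_mono_mul]
    change a.1 j * _ = 0
    rw [ha j hj, zero_mul])
  refine ⟨1 - y * u * mono (shift k) n a, ?_⟩
  calc (1 - y * u * mono (shift k) n a) * (1 + y * mono (shift k) n a)
      = 1 + y * mono (shift k) n a - y * (u * (1 + mono (shift k) n a * y)) *
          mono (shift k) n a := by noncomm_ring
    _ = 1 := by rw [hu, mul_one, add_sub_cancel_right]

lemma mono_mem {a : coeffRing k} (ha : aug a = 0) (n : ℤ) :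
    mono (shift k) n a ∈ Ring.jacobson (SkewLaurent (coeffRing k) (shift k)) := by
  have key : ∀ (s : Finset ℤ) (a : coeffRing k), aug a = 0 → (∀ j, j ∉ s → a.1 j = 0) →
      mono (shift k) n a ∈ Ring.jacobson (SkewLaurent (coeffRing k) (shift k)) := by
    intro s
    induction s using Finset.induction_on with
    | empty =>
      intro a _ ha
      have : a = 0 := by
        ext1
        funext j
        exact ha j (Finset.notMem_empty j)
      rw [this, mono_zero]
      exact Submodule.zero_mem _
    | insert i s _ ih =>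
      intro a ha0 ha
      have hfin := fin_supp a
      rw [ha0, map_zero] at hfin
      let b : coeffRing k := ⟨fun j => if j = i then a.1 j else 0, 0, fun j => by
        dsimp only
        split_ifs
        · rw [const_eq, ha0]
        · rw [map_zero], hfin.subset fun j hj => by
        intro h0
        apply hj
        rw [map_zero]
        dsimp only
        rw [h0, ite_self]⟩
      have hb : ∀ j, j ≠ i → b.1 j = 0 := fun j hj => if_neg hj
      have hb' : b.1 i = a.1 i := if_pos rfl
      have e : a = b + (a - b) := by abel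
      rw [e, mono_add]
      refine Submodule.add_mem _ (mono_mem_of_supp hb n) (ih (a - b) ?_ ?_)
      · rw [sub_eq_add_neg, aug_add, aug_neg, ha0, aug_of_supp hb, neg_zero, add_zero]
      · intro j hj
        change a.1 j - b.1 j = 0
        by_cases hji : j = i
        · rw [hji, hb', sub_self]
        · rw [hb j hji, sub_zero]
          refine ha j ?_
          rw [Finset.mem_insert, not_or]
          exact ⟨hji, hj⟩
  have hfin := fin_supp a
  rw [ha, map_zero] at hfin
  refine key hfin.toFinset a ha fun j hj => ?_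
  by_contra hcon
  exact hj (hfin.mem_toFinset.2 hcon)

lemma low_mem_jacobson {f : SkewLaurent (coeffRing k) (shift k)} {L : ℤ}
    (hf : ∀ n < L, aug (f.coeff n) = 0) :
    low L f ∈ Ring.jacobson (SkewLaurent (coeffRing k) (shift k)) :=
  low_mem (Submodule.toAddSubgroup (Ring.jacobson (SkewLaurent (coeffRing k) (shift k)))) L f
    fun n hn => mono_mem (hf n hn) n

/-- `1 + j` has a left inverse for `j` in the Jacobson radical -/
lemma left_inv_one_add {R : Type u} [Ring R] {x : R} (hx : x ∈ Ring.jacobson R) :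
    ∃ z, z * (1 + x) = 1 := by
  obtain ⟨z, hz⟩ := (mem_jacobson_iff' x).1 hx 1
  exact ⟨z, by rwa [one_mul] at hz⟩

lemma mem_jacobson {f : SkewLaurent (coeffRing k) (shift k)}
    (hf : ∀ n, aug (f.coeff n) = 0) :
    f ∈ Ring.jacobson (SkewLaurent (coeffRing k) (shift k)) := by
  rw [mem_jacobson_iff']
  intro y
  have hg : ∀ n, aug ((y * f).coeff n) = 0 := by
    intro n
    rw [SkewLaurent.coeff_mul]
    let augHom : coeffRing k →+ k :=
      { toFun := aug, map_zero' := aug_zero, map_add' := aug_add }
    have := augHom.map_finsum (finite_support y f n)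
    refine this.trans (finsum_eq_zero_of_forall_eq_zero fun i => ?_)
    change aug (y.coeff i * (shift k ^ i) (f.coeff (n - i))) = 0
    rw [aug_mul, aug_zpow, hf, mul_zero]
  obtain ⟨v, hv⟩ := exists_left_inv (ge_sub_low 1 (y * f))
  have hlow : low 1 (y * f) ∈ Ring.jacobson (SkewLaurent (coeffRing k) (shift k)) :=
    low_mem_jacobson fun n _ => hg n
  obtain ⟨w, hw⟩ := left_inv_one_add ((Ring.jacobson _).mul_mem_left v hlow)
  refine ⟨w * v, ?_⟩
  calc w * v * (1 + y * f)
      = w * (v * (1 + (y * f - low 1 (y * f))) + v * low 1 (y * f)) := by noncomm_ring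
    _ = 1 := by rw [hv, hw]

lemma exists_left_inverse {f : SkewLaurent (coeffRing k) (shift k)}
    (hf : ∃ n, aug (f.coeff n) ≠ 0) : ∃ g, g * f = 1 := by
  obtain ⟨n, hn, hmin⟩ := Int.exists_least_of_bdd (P := fun n => aug (f.coeff n) ≠ 0) (by
    obtain ⟨N, hN⟩ := f.bdd
    refine ⟨N, fun n hn => ?_⟩
    by_contra hcon
    exact hn (by rw [hN n (by omega), aug_zero])) hf
  have hlow : low n f ∈ Ring.jacobson (SkewLaurent (coeffRing k) (shift k)) :=
    low_mem_jacobson fun m hm => by
      by_contra hcon
      exact absurd (hmin m hcon) (by omega)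
  obtain ⟨b, hb⟩ := exists_inv (f.coeff n) hn
  let q : SkewLaurent (coeffRing k) (shift k) := mono (shift k) (-n) ((shift k ^ (-n)) b)
  let p : SkewLaurent (coeffRing k) (shift k) := q * (f - low n f) - 1
  have hp : Ge 1 p := by
    intro m hm
    rw [coeff_sub, coeff_mono_mul, coeff_sub, coeff_low, coeff_one, ← map_mul]
    by_cases h0 : m = 0
    · rw [if_pos h0, if_neg (by omega), sub_zero, h0, show (0 : ℤ) - -n = n by ring, hb, map_one,
        sub_self]
    · rw [if_neg h0, if_pos (by omega), sub_self, mul_zero, map_zero, sub_self]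
  obtain ⟨v, hv⟩ := exists_left_inv hp
  obtain ⟨w, hw⟩ := left_inv_one_add ((Ring.jacobson _).mul_mem_left (v * q) hlow)
  refine ⟨w * v * q, ?_⟩
  calc w * v * q * f
      = w * (v * (1 + p) + v * q * low n f) := by
        simp only [p]
        noncomm_ring
    _ = 1 := by rw [hv, hw]

/-- **Main result.** For every field `k` there are a commutative local ring `A` (of the size of
`k`) and an automorphism `φ` of `A` such that the skew Laurent series ring `A((x,φ))` is
local and semilocal, and `J(A)` is not nil. -/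
theorem result (k : Type u) [Field k] : ∃ (A : Type u) (_ : CommRing A) (φ : RingAut A),
    IsLocalRing A ∧ IsLocalRing (SkewLaurent A φ) ∧ IsSemilocal (SkewLaurent A φ) ∧
      ∃ a ∈ Ring.jacobson A, ¬ IsNilpotent a := by
  have hne : Nontrivial (SkewLaurent (coeffRing k) (shift k)) := by
    refine ⟨⟨0, 1, fun h => ?_⟩⟩
    have := congrArg (fun f => aug (f.coeff 0)) h
    simp only [coeff_zero, coeff_one, if_true, aug_zero, aug_one] at this
    exact zero_ne_one this
  have hleft : ∀ f : SkewLaurent (coeffRing k) (shift k), f ∉ Ring.jacobson _ →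
      ∃ g, g * f = 1 := by
    intro f hf
    apply exists_left_inverse
    by_contra hcon
    push Not at hcon
    exact hf (mem_jacobson hcon)
  have hunit : ∀ f : SkewLaurent (coeffRing k) (shift k), (∃ n, aug (f.coeff n) ≠ 0) →
      IsUnit f := by
    intro f hf
    obtain ⟨g, hg⟩ := exists_left_inverse hf
    have hgJ : g ∉ Ring.jacobson (SkewLaurent (coeffRing k) (shift k)) := by
      intro h
      have h1 : (1 : SkewLaurent (coeffRing k) (shift k)) ∈ Ring.jacobson _ :=
        hg ▸ Ideal.mul_mem_right f _ h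
      obtain ⟨z, hz⟩ := (mem_jacobson_iff' _).1 h1 (-1)
      rw [mul_one, add_neg_cancel, mul_zero] at hz
      exact zero_ne_one hz
    obtain ⟨e, he⟩ := hleft g hgJ
    have : e = f := by
      calc e = e * (g * f) := by rw [hg, mul_one]
        _ = f := by rw [← mul_assoc, he, one_mul]
    rw [this] at he
    exact ⟨⟨f, g, he, hg⟩, rfl⟩
  have hA : Nontrivial (coeffRing k) := by
    refine ⟨⟨0, 1, fun h => ?_⟩⟩
    have := congrArg aug h
    rw [aug_zero, aug_one] at this
    exact zero_ne_one this
  have hAunit : ∀ a : coeffRing k, aug a ≠ 0 → IsUnit a := by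
    intro a ha
    obtain ⟨b, hb⟩ := exists_inv a ha
    exact IsUnit.of_mul_eq_one b (by rw [mul_comm, hb])
  refine ⟨coeffRing k, inferInstance, shift k, ?_, ?_, ?_, ?_⟩
  · refine { isUnit_or_isUnit_of_add_one := fun {a b} hab => ?_ }
    by_cases ha : aug a = 0
    · right
      apply hAunit
      have := congrArg aug hab
      rw [aug_add, ha, zero_add, aug_one] at this
      rw [this]
      exact one_ne_zero
    · exact Or.inl (hAunit a ha)
  · refine { isUnit_or_isUnit_of_add_one := fun {a b} hab => ?_ }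
    by_cases ha : aug (a.coeff 0) = 0
    · right
      apply hunit
      refine ⟨0, ?_⟩
      have := congrArg (fun f => aug (f.coeff 0)) hab
      simp only [coeff_add, aug_add, ha, zero_add, coeff_one, if_true, aug_one] at this
      rw [this]
      exact one_ne_zero
    · exact Or.inl (hunit a ⟨0, ha⟩)
  · exact isSemilocal_of_left_inverse _ hleft
  · let a : coeffRing k := ⟨fun i => if i = 0 then X else 0, 0, fun i => by
      dsimp only
      split_ifs
      · exact constantCoeff_X
      · exact map_zero _, (Set.finite_singleton 0).subset fun i hi => by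
      by_contra h0
      apply hi
      dsimp only
      rw [map_zero, if_neg (fun h => h0 (Set.mem_singleton_iff.2 h))]⟩
    have ha0 : a.1 0 = X := by
      change (if (0 : ℤ) = 0 then (X : PowerSeries k) else 0) = X
      rw [if_pos rfl]
    have haug : aug a = 0 := by
      rw [aug, ha0]
      exact constantCoeff_X
    refine ⟨a, ?_, ?_⟩
    · rw [mem_jacobson_iff']
      intro y
      exact exists_inv _ (by
        rw [aug_add, aug_mul, haug, mul_zero, add_zero, aug_one]
        exact one_ne_zero)
    · rintro ⟨n, hn⟩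
      have h1 : (a ^ n).1 0 = X ^ n := by
        rw [← ha0]
        rfl
      rw [hn] at h1
      have h2 : (X : PowerSeries k) ^ n ≠ 0 := pow_ne_zero n X_ne_zero
      exact h2 h1.symm

end Pool.Agent.Results.MP_669787_al.NotNil
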